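import Mathlib

set_option autoImplicit false

open Subgroup

universe u v

namespace Pool.Agent.MP_cb38be.H21

section act
variable {K : Type u} {L : Type v} [Group K] [Group L]

/-- transported conjugation action -/
noncomputable def act (e : K ≃ L) (h : ∀ z : MulAut K, ∃ a : MulAut L, ∀ x : K, a (e x) = e (z x)) :
    K →* MulAut L where
  toFun k :=
    { toFun := fun y => e (k * e.symm y * k⁻¹)
      invFun := fun y => e (k⁻¹ * e.symm y * k)
      left_inv := fun y => by simp [mul_assoc]
      right_inv := fun y => by simp [mul_assoc]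
      map_mul' := by
        obtain ⟨a, ha⟩ := h (MulAut.conj k)
        have key : ∀ y : L, e (k * e.symm y * k⁻¹) = a y := by
          intro y
          have := ha (e.symm y)
          simpa [MulAut.conj_apply] using this.symm
        intro x y
        rw [key, key, key, map_mul] }
  map_one' := by ext y; simp
  map_mul' a b := by
    ext y
    simp [MulAut.mul_apply, mul_assoc]

theorem act_apply (e : K ≃ L) (h) (k : K) (y : L) : act e h k y = e (k * e.symm y * k⁻¹) := rfl

theorem act_fix (e : K ≃ L) (h) (k : K) (y : L) :
    act e h k y = y ↔ k * e.symm y = e.symm y * k := by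
  rw [act_apply]
  constructor
  · intro H
    have : k * e.symm y * k⁻¹ = e.symm y := by
      apply e.injective
      simpa using H
    exact mul_inv_eq_iff_eq_mul.mp this
  · intro H
    rw [H]; simp

/-- fixed points of the whole group -/
theorem fix_all (e : K ≃ L) (h) (hZ : center K = ⊥) (y : L) (hy : ∀ k, act e h k y = y) :
    y = 1 := by
  have h1 : ∀ y : L, (∀ k, act e h k y = y) → e.symm y = 1 := by
    intro y hy
    have : e.symm y ∈ center K := by
      rw [mem_center_iff]
      intro k
      exact (act_fix e h k y).mp (hy k)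
    rw [hZ] at this
    simpa using this
  have h2 := h1 y hy
  have h3 := h1 1 (fun k => map_one _)
  exact e.symm.injective (h2.trans h3.symm)

/-- fixed subgroup -/
def fixSub (a : MulAut L) : Subgroup L where
  carrier := {y | a y = y}
  mul_mem' := by intro x y hx hy; change a _ = _ at hx hy ⊢; rw [map_mul, hx, hy]
  one_mem' := map_one _
  inv_mem' := by intro x hx; change a _ = _ at hx ⊢; rw [map_inv, hx]

theorem mem_fixSub (a : MulAut L) (y : L) : y ∈ fixSub a ↔ a y = y := Iff.rfl

theorem card_fixSub (e : K ≃ L) (h) (x : K) :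
    Nat.card (fixSub (act e h x)) = Nat.card (centralizer {x} : Subgroup K) := by
  refine Nat.card_congr (Equiv.subtypeEquiv e ?_).symm
  intro a
  rw [mem_centralizer_singleton_iff, mem_fixSub, act_fix]
  simp [eq_comm]

end act

section sylow
variable {K : Type u} {L : Type v} [Group K] [Group L] [Finite K] [Finite L]

/-- Some nontrivial x in K fixes a Sylow p-subgroup of L pointwise. -/
theorem exists_fix_sylow (e : K ≃ L) (h) (p : ℕ) [Fact p.Prime] (hp : p ∣ Nat.card K) :
    ∃ x : K, x ≠ 1 ∧ ∃ Q : Sylow p L, (Q : Subgroup L) ≤ fixSub (act e h x) := by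
  obtain ⟨R⟩ : Nonempty (Sylow p K) := inferInstance
  have hR1 : Nontrivial (R : Subgroup K) := by
    rw [← Finite.one_lt_card_iff_nontrivial]
    have := R.card_eq_multiplicity
    rw [this]
    apply Nat.one_lt_pow
    · have : Nat.card K ≠ 0 := Nat.card_pos.ne'
      exact (Nat.Prime.factorization_pos_of_dvd Fact.out this hp).ne'
    · exact (Fact.out : p.Prime).one_lt
  have hZ := R.2.center_nontrivial
  obtain ⟨z, hz⟩ := exists_ne (1 : center (R : Subgroup K))
  refine ⟨((z : (R : Subgroup K)) : K), ?_, ?_⟩
  · intro hh
    apply hz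
    ext
    simpa using hh
  set x : K := ((z : (R : Subgroup K)) : K) with hx
  have hRle : (R : Subgroup K) ≤ centralizer {x} := by
    intro r hr
    rw [mem_centralizer_singleton_iff]
    have := mem_center_iff.mp z.2 ⟨r, hr⟩
    have h2 := congrArg (Subtype.val) this
    simpa [hx] using h2
  set F := fixSub (act e h x) with hF
  obtain ⟨Q⟩ : Nonempty (Sylow p F) := inferInstance
  set Q' : Subgroup L := (Q : Subgroup F).map F.subtype with hQ'
  have hQ'p : IsPGroup p Q' := Q.2.map _
  have hcardL : Nat.card L = Nat.card K := (Nat.card_congr e).symm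
  have hcard : Nat.card Q' = p ^ (Nat.card F).factorization p := by
    rw [hQ', Subgroup.card_map_of_injective F.subtype_injective]
    exact Q.card_eq_multiplicity
  have hdiv : Nat.card (R : Subgroup K) ∣ Nat.card F := by
    rw [hF, card_fixSub]
    exact card_dvd_of_le hRle
  have hle : (Nat.card L).factorization p ≤ (Nat.card F).factorization p := by
    rw [R.card_eq_multiplicity, ← hcardL] at hdiv
    rwa [(Fact.out : p.Prime).pow_dvd_iff_le_factorization Nat.card_pos.ne'] at hdiv
  obtain ⟨S, hS⟩ := hQ'p.exists_le_sylow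
  have hQS : Q' = S := by
    apply Subgroup.eq_of_le_of_card_ge hS
    rw [S.card_eq_multiplicity, hcard]
    exact Nat.pow_le_pow_right (Fact.out : p.Prime).pos hle
  refine ⟨S, ?_⟩
  rw [← hQS, hQ']
  exact Subgroup.map_subtype_le _

/-- Every normal p-subgroup of L is fixed by some nontrivial x. -/
theorem exists_fix (e : K ≃ L) (h) (p : ℕ) [Fact p.Prime] (hp : p ∣ Nat.card K) :
    ∃ x : K, x ≠ 1 ∧ ∀ N : Subgroup L, N.Normal → IsPGroup p N → N ≤ fixSub (act e h x) := by
  obtain ⟨x, hx, Q, hQ⟩ := exists_fix_sylow e h p hp
  refine ⟨x, hx, fun N hN hNp => ?_⟩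
  have hsup : IsPGroup p ((Q : Subgroup L) ⊔ N : Subgroup L) := Q.2.to_sup_of_normal_right hNp
  have h1 := Q.3 hsup le_sup_left
  exact (le_sup_right.trans (le_of_eq h1)).trans hQ

/-- K simple nonabelian: no nontrivial characteristic p-subgroup of L. -/
theorem no_char_p [IsSimpleGroup K] (hZ : center K = ⊥) (e : K ≃ L)
    (h : ∀ z : MulAut K, ∃ a : MulAut L, ∀ x : K, a (e x) = e (z x)) (p : ℕ) [Fact p.Prime]
    (N : Subgroup L) [N.Characteristic] (hN : IsPGroup p N) : N = ⊥ := by
  by_contra hne
  have hcardL : Nat.card L = Nat.card K := (Nat.card_congr e).symm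
  have hp : p ∣ Nat.card K := by
    rw [← hcardL]
    obtain ⟨n, hn⟩ := IsPGroup.iff_card.mp hN
    have hn0 : n ≠ 0 := by
      rintro rfl
      apply hne
      rw [pow_zero] at hn
      exact Subgroup.card_eq_one.mp hn
    exact (dvd_pow_self p hn0).trans (hn ▸ card_subgroup_dvd_card N)
  obtain ⟨x, hx1, hx⟩ := exists_fix e h p hp
  -- kernel
  let M : Subgroup K :=
    { carrier := {k | ∀ y ∈ N, act e h k y = y}
      mul_mem' := by
        intro a b ha hb y hy
        rw [map_mul, MulAut.mul_apply, hb y hy, ha y hy]
      one_mem' := by intro y _; simp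
      inv_mem' := by
        intro a ha y hy
        have := ha y hy
        rw [map_inv]
        rw [MulAut.inv_apply, MulEquiv.symm_apply_eq]
        exact this.symm }
  have hMn : M.Normal := by
    constructor
    intro k hk g y hy
    rw [map_mul, map_mul, map_inv, MulAut.mul_apply, MulAut.mul_apply]
    have hy' : (act e h g)⁻¹ y ∈ N := by
      have : N.comap ((act e h g)⁻¹ : MulAut L).toMonoidHom = N :=
        Subgroup.Characteristic.fixed (H := N) inferInstance ((act e h g)⁻¹ : MulAut L)
      have h2 : y ∈ N.comap ((act e h g)⁻¹ : MulAut L).toMonoidHom := by rw [this]; exact hy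
      simpa using h2
    have h3 : act e h k ((act e h g)⁻¹ y) = (act e h g)⁻¹ y := hk _ hy'
    rw [h3]
    exact MulAut.apply_inv_self L (act e h g) y
  have hM : M = ⊤ := by
    rcases hMn.eq_bot_or_eq_top with hb | ht
    · exfalso
      apply hx1
      have : x ∈ M := by
        intro y hy
        exact hx N inferInstance hN hy
      rw [hb] at this
      simpa using this
    · exact ht
  apply hne
  rw [eq_bot_iff]
  intro y hy
  rw [mem_bot]
  apply fix_all e h hZ
  intro k
  have : k ∈ M := by rw [hM]; trivial
  exact this y hy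

end sylow

end Pool.Agent.MP_cb38be.H21
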