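import Mathlib

set_option autoImplicit false

open Subgroup
open scoped Pointwise

universe u v

namespace Pool.Agent.MP_cb38be.H21

variable {L : Type v} [Group L]

theorem exists_min [Finite L] (P : Subgroup L → Prop) (h : ∃ S, P S) :
    ∃ S, P S ∧ ∀ T, P T → T ≤ S → T = S := by
  obtain ⟨m, hm, hmin⟩ := (wellFounded_lt (α := Subgroup L)).has_min {S | P S} h
  refine ⟨m, hm, fun T hT hle => ?_⟩
  by_contra hne
  exact hmin T hT (lt_of_le_of_ne hle hne)

/-- S is contained in N and normalised by N -/
def NIn (N S : Subgroup L) : Prop := S ≤ N ∧ ∀ n ∈ N, ∀ s ∈ S, n * s * n⁻¹ ∈ S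

/-- minimal nontrivial -/
def MinIn (N S : Subgroup L) : Prop :=
  (S ≠ ⊥ ∧ NIn N S) ∧ ∀ T : Subgroup L, (T ≠ ⊥ ∧ NIn N T) → T ≤ S → T = S

theorem char_smul (N : Subgroup L) [hN : N.Characteristic] (a : MulAut L) : a • N = N := by
  ext y
  rw [Subgroup.mem_pointwise_smul_iff_inv_smul_mem]
  have := Subgroup.Characteristic.fixed hN (a⁻¹ : MulAut L)
  conv_rhs => rw [← this]
  rfl

theorem mem_char (N : Subgroup L) [hN : N.Characteristic] (a : MulAut L) (y : L) (hy : y ∈ N) :
    a y ∈ N := by
  have := Subgroup.smul_mem_pointwise_smul y a N hy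
  rwa [char_smul] at this

theorem NIn.smul {N S : Subgroup L} [N.Characteristic] (h : NIn N S) (a : MulAut L) :
    NIn N (a • S) := by
  constructor
  · rw [← char_smul N a]
    exact Subgroup.pointwise_smul_le_pointwise_smul_iff.mpr h.1
  · intro n hn s hs
    rw [Subgroup.mem_pointwise_smul_iff_inv_smul_mem] at hs ⊢
    rw [smul_mul', smul_mul', smul_inv']
    exact h.2 _ (mem_char N a⁻¹ n hn) _ hs

theorem MinIn.smul {N S : Subgroup L} [N.Characteristic] (h : MinIn N S) (a : MulAut L) :
    MinIn N (a • S) := by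
  refine ⟨⟨?_, h.1.2.smul a⟩, ?_⟩
  · intro hb
    apply h.1.1
    have := congrArg (fun T => a⁻¹ • T) hb
    simpa using this
  · intro T hT hle
    have h1 : a⁻¹ • T ≠ ⊥ := by
      intro hb
      apply hT.1
      have := congrArg (fun T => a • T) hb
      simpa using this
    have h2 := h.2 (a⁻¹ • T) ⟨h1, hT.2.smul a⁻¹⟩ (by
      have := Subgroup.pointwise_smul_le_pointwise_smul_iff (a := a⁻¹).mpr hle
      simpa using this)
    rw [← h2]; simp

theorem NIn.inf {N S T : Subgroup L} (hS : NIn N S) (hT : NIn N T) : NIn N (S ⊓ T) :=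
  ⟨inf_le_left.trans hS.1, fun n hn s hs => ⟨hS.2 n hn s hs.1, hT.2 n hn s hs.2⟩⟩

theorem MinIn.eq_or_commute {N S T : Subgroup L} (hS : MinIn N S) (hT : MinIn N T) :
    S = T ∨ ∀ s ∈ S, ∀ t ∈ T, s * t = t * s := by
  by_cases hb : S ⊓ T = ⊥
  · right
    intro s hs t ht
    have h1 : s * t * s⁻¹ * t⁻¹ ∈ S ⊓ T := by
      constructor
      · have h2 := hS.1.2.2 t (hT.1.2.1 ht) s⁻¹ (S.inv_mem hs)
        have : s * t * s⁻¹ * t⁻¹ = s * (t * s⁻¹ * t⁻¹) := by group
        rw [this]
        exact mul_mem hs h2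
      · have h2 := hT.1.2.2 s (hS.1.2.1 hs) t ht
        exact mul_mem h2 (T.inv_mem ht)
    rw [hb, mem_bot] at h1
    have h3 : s * t * s⁻¹ = t := mul_inv_eq_one.mp h1
    exact mul_inv_eq_iff_eq_mul.mp h3
  · left
    have h1 := hS.2 (S ⊓ T) ⟨hb, hS.1.2.inf hT.1.2⟩ inf_le_left
    have h2 := hT.2 (S ⊓ T) ⟨hb, hS.1.2.inf hT.1.2⟩ inf_le_right
    exact h1.symm.trans h2

/-- main structural lemma -/
theorem exists_simple [Finite L] [Nontrivial L]
    (hno : ∀ p : ℕ, p.Prime → ∀ N : Subgroup L, N.Characteristic → IsPGroup p N → N = ⊥) :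
    ∃ N S : Subgroup L, N.Characteristic ∧ MinIn N S ∧ IsSimpleGroup S ∧
      (∀ y ∈ S, (∀ t ∈ S, y * t = t * y) → y = 1) := by
  obtain ⟨N, ⟨hN1, hN2⟩, hNmin⟩ := exists_min (fun N : Subgroup L => N ≠ ⊥ ∧ N.Characteristic)
    ⟨⊤, top_ne_bot, inferInstance⟩
  obtain ⟨S, hS, hSmin⟩ := exists_min (fun S : Subgroup L => S ≠ ⊥ ∧ NIn N S)
    ⟨N, hN1, le_rfl, fun n hn s hs => mul_mem (mul_mem hn hs) (inv_mem hn)⟩
  have hMin : MinIn N S := ⟨hS, hSmin⟩
  -- N not commutative
  have hNc : ¬ (∀ x ∈ N, ∀ y ∈ N, x * y = y * x) := by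
    intro hc
    have : Nat.card N ≠ 1 := by
      intro h1
      exact hN1 (Subgroup.card_eq_one.mp h1)
    obtain ⟨p, hp, hpd⟩ := Nat.exists_prime_and_dvd this
    have := Fact.mk hp
    let Np : Subgroup L :=
      { carrier := {y | y ∈ N ∧ y ^ p = 1}
        mul_mem' := by
          rintro a b ⟨ha, ha'⟩ ⟨hb, hb'⟩
          refine ⟨mul_mem ha hb, ?_⟩
          have : Commute a b := hc a ha b hb
          rw [this.mul_pow, ha', hb', one_mul]
        one_mem' := ⟨one_mem _, one_pow _⟩
        inv_mem' := by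
          rintro a ⟨ha, ha'⟩
          exact ⟨inv_mem ha, by rw [inv_pow, ha', inv_one]⟩ }
    have hchar : Np.Characteristic := by
      rw [Subgroup.characteristic_iff_le_comap]
      intro a y hy
      refine ⟨mem_char N a y hy.1, ?_⟩
      change (a y) ^ p = 1
      rw [← map_pow, hy.2, map_one]
    have hpg : IsPGroup p Np := by
      intro y
      refine ⟨1, ?_⟩
      ext
      simpa using y.2.2
    have hbot := hno p hp Np hchar hpg
    obtain ⟨y, hy⟩ := exists_prime_orderOf_dvd_card' (G := N) p hpd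
    have : (y : L) ∈ Np := by
      refine ⟨y.2, ?_⟩
      have h1 := pow_orderOf_eq_one y
      rw [hy] at h1
      have := congrArg Subtype.val h1
      simpa using this
    rw [hbot, mem_bot] at this
    have hy1 : y = 1 := by ext; simpa using this
    rw [hy1, orderOf_one] at hy
    exact hp.one_lt.ne hy
  -- N is the join of the images of S
  have hM : (⨆ a : MulAut L, a • S) = N := by
    apply hNmin
    · constructor
      · intro hb
        apply hS.1
        rw [eq_bot_iff, ← hb]
        exact le_iSup_of_le 1 (by simp)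
      · rw [Subgroup.characteristic_iff_map_le]
        intro a
        rw [Subgroup.map_iSup]
        apply iSup_le
        intro b
        refine le_trans ?_ (le_iSup _ (a * b))
        rw [mul_smul]
        exact le_of_eq rfl
    · apply iSup_le
      intro a
      exact (hS.2.smul a).1
  have hgen : ∀ D : Subgroup L, (∀ a : MulAut L, a • S ≤ D) → N ≤ D := by
    intro D hD
    rw [← hM]
    exact iSup_le hD
  -- centre of S trivial
  have hcent : ∀ y ∈ S, (∀ t ∈ S, y * t = t * y) → y = 1 := by
    let Z : Subgroup L :=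
      { carrier := {y | y ∈ S ∧ ∀ t ∈ S, y * t = t * y}
        mul_mem' := by
          rintro a b ⟨ha, ha'⟩ ⟨hb, hb'⟩
          refine ⟨mul_mem ha hb, fun t ht => ?_⟩
          rw [mul_assoc, hb' t ht, ← mul_assoc, ha' t ht, mul_assoc]
        one_mem' := ⟨one_mem _, fun t _ => by simp⟩
        inv_mem' := by
          rintro a ⟨ha, ha'⟩
          refine ⟨inv_mem ha, fun t ht => ?_⟩
          have : Commute a t := ha' t ht
          exact this.inv_left }
    have hZn : NIn N Z := by
      refine ⟨fun y hy => hS.2.1 hy.1, ?_⟩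
      rintro n hn s ⟨hs, hs'⟩
      refine ⟨hS.2.2 n hn s hs, fun t ht => ?_⟩
      have h1 := hS.2.2 n⁻¹ (inv_mem hn) t ht
      rw [inv_inv] at h1
      have h2 := hs' _ h1
      have : n * s * n⁻¹ * t = n * (s * (n⁻¹ * t * n)) * n⁻¹ := by group
      rw [this, h2]; group
    by_cases hb : Z = ⊥
    · intro y hy hy'
      have : y ∈ Z := ⟨hy, hy'⟩
      rw [hb] at this
      simpa using this
    · exfalso
      have hZS := hSmin Z ⟨hb, hZn⟩ (fun y hy => hy.1)
      have hSc : ∀ x ∈ S, ∀ t ∈ S, x * t = t * x := by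
        intro x hx
        rw [← hZS] at hx
        exact hx.2
      apply hNc
      have h1 : ∀ a b : MulAut L, ∀ x ∈ a • S, ∀ y ∈ b • S, x * y = y * x := by
        intro a b x hx y hy
        rcases (hMin.smul a).eq_or_commute (hMin.smul b) with h | h
        · rw [← h] at hy
          rw [Subgroup.mem_pointwise_smul_iff_inv_smul_mem] at hx hy
          have := hSc _ hx _ hy
          have h2 := congrArg (fun z => a • z) this
          simpa [smul_mul'] using h2
        · exact h x hx y hy
      have h2 : ∀ a : MulAut L, ∀ x ∈ a • S, ∀ y ∈ N, x * y = y * x := by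
        intro a x hx y hy
        have : N ≤ centralizer {x} := by
          apply hgen
          intro b z hz
          rw [mem_centralizer_singleton_iff]
          exact (h1 a b x hx z hz).symm
        exact (mem_centralizer_singleton_iff.mp (this hy)).symm
      intro x hx y hy
      have : N ≤ centralizer {y} := by
        apply hgen
        intro b z hz
        rw [mem_centralizer_singleton_iff]
        exact h2 b z hz y hy
      exact mem_centralizer_singleton_iff.mp (this hx)
  refine ⟨N, S, hN2, hMin, ?_, hcent⟩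
  have : Nontrivial S := (Subgroup.nontrivial_iff_ne_bot S).mpr hS.1
  refine ⟨?_⟩
  intro T hT
  -- T' as a subgroup of L
  set T' : Subgroup L := T.map S.subtype with hT'
  have hT'S : T' ≤ S := Subgroup.map_subtype_le _
  have hnT : NIn N T' := by
    refine ⟨hT'S.trans hS.2.1, ?_⟩
    let D : Subgroup L :=
      { carrier := {n | (∀ s ∈ T', n * s * n⁻¹ ∈ T') ∧ (∀ s ∈ T', n⁻¹ * s * n ∈ T')}
        mul_mem' := by
          rintro a b ⟨ha, ha'⟩ ⟨hb, hb'⟩
          constructor
          · intro s hs
            have := ha _ (hb s hs)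
            have h2 : a * b * s * (a * b)⁻¹ = a * (b * s * b⁻¹) * a⁻¹ := by group
            rw [h2]; exact this
          · intro s hs
            have := hb' _ (ha' s hs)
            have h2 : (a * b)⁻¹ * s * (a * b) = b⁻¹ * (a⁻¹ * s * a) * b := by group
            rw [h2]; exact this
        one_mem' := by
          constructor <;> intro s hs <;> simpa using hs
        inv_mem' := by
          rintro a ⟨ha, ha'⟩
          constructor
          · intro s hs; simpa using ha' s hs
          · intro s hs; simpa using ha s hs }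
    have hND : N ≤ D := by
      apply hgen
      intro a x hx
      rcases (hMin.smul a).eq_or_commute hMin with h | h
      · rw [h] at hx
        constructor
        · rintro s hs
          obtain ⟨t, ht, rfl⟩ := hs
          refine ⟨⟨x, hx⟩ * t * ⟨x, hx⟩⁻¹, hT.conj_mem t ht _, ?_⟩
          simp
        · rintro s hs
          obtain ⟨t, ht, rfl⟩ := hs
          refine ⟨⟨x, hx⟩⁻¹ * t * (⟨x, hx⟩⁻¹)⁻¹, hT.conj_mem t ht _, ?_⟩
          simp
      · constructor
        · intro s hs
          have h1 := h x hx s (hT'S hs)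
          rw [h1]; simpa using hs
        · intro s hs
          have h1 := h x hx s (hT'S hs)
          rw [mul_assoc, ← h1]; simpa using hs
    intro n hn s hs
    exact (hND hn).1 s hs
  by_cases hb : T' = ⊥
  · left
    rw [eq_bot_iff]
    intro t ht
    have : (t : L) ∈ T' := ⟨t, ht, rfl⟩
    rw [hb, mem_bot] at this
    rw [mem_bot]
    ext
    simpa using this
  · right
    have := hSmin T' ⟨hb, hnT⟩ hT'S
    rw [eq_top_iff]
    intro t _
    have h1 : (t : L) ∈ T' := by rw [this]; exact t.2
    obtain ⟨t', ht', h2⟩ := h1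
    have : t' = t := Subtype.ext h2
    rwa [← this]

end Pool.Agent.MP_cb38be.H21
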