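import Pool.Agent.Lib.MP_cb38be_al_h21.B

set_option autoImplicit false

open Subgroup
open scoped Pointwise

universe u v

namespace Pool.Agent.MP_cb38be.H21

theorem relIndex_dvd {G : Type v} [Group G] [Finite G] (Q N : Subgroup G) [N.Normal] :
    Q.relIndex N ∣ Q.index := by
  have h1 : (Q ⊓ N).relIndex Q * Q.relIndex (Q ⊔ N) = (Q ⊓ N).relIndex (Q ⊔ N) :=
    relIndex_mul_relIndex _ _ _ inf_le_left le_sup_left
  have h2 : (Q ⊓ N).relIndex N * N.relIndex (Q ⊔ N) = (Q ⊓ N).relIndex (Q ⊔ N) :=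
    relIndex_mul_relIndex _ _ _ inf_le_right le_sup_right
  rw [relIndex_sup_right, inf_relIndex_right] at h2
  rw [inf_relIndex_left] at h1
  have h0 : 0 < N.relIndex Q := Nat.pos_of_ne_zero (by
    intro h0
    have := relIndex_dvd_card N Q
    rw [h0] at this
    exact Nat.card_pos.ne' (Nat.eq_zero_of_zero_dvd this))
  have h3 : Q.relIndex (Q ⊔ N) = Q.relIndex N := by
    apply Nat.eq_of_mul_eq_mul_left h0
    rw [h1, ← h2, mul_comm]
  rw [← h3]
  exact relIndex_dvd_index_of_le le_sup_left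

variable {L : Type v} [Group L] [Finite L]

theorem relIndex_dvd' (Q N S : Subgroup L) [N.Normal] (hS : NIn N S) : Q.relIndex S ∣ Q.index := by
  have hn : (S.subgroupOf N).Normal := by
    constructor
    intro s hs n
    rw [mem_subgroupOf] at hs ⊢
    simpa using hS.2 n n.2 s hs
  rw [← relIndex_subgroupOf hS.1]
  exact (relIndex_dvd (Q.subgroupOf N) (S.subgroupOf N)).trans (relIndex_dvd Q N)

/-- Sylow subgroups of L cut down to Sylow subgroups of S -/
theorem exists_sylow (p : ℕ) [Fact p.Prime] (Q : Sylow p L) (N S : Subgroup L) [N.Normal]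
    (hS : NIn N S) : ∃ P : Sylow p S, ∀ y ∈ P, ((y : S) : L) ∈ Q := by
  have h1 : IsPGroup p ((Q : Subgroup L).subgroupOf S) :=
    Q.2.comap_of_injective S.subtype S.subtype_injective
  have h2 : ¬ p ∣ ((Q : Subgroup L).subgroupOf S).index := fun h =>
    Q.not_dvd_index (h.trans (relIndex_dvd' _ N S hS))
  refine ⟨h1.toSylow h2, fun y hy => ?_⟩
  rw [IsPGroup.mem_toSylow] at hy
  exact hy

theorem mem_smul_sylow {S : Type v} [Group S] {p : ℕ} (a : MulAut S) (P : Sylow p S) (y : S) :
    y ∈ a • P ↔ a⁻¹ y ∈ P := by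
  change y ∈ a • (P : Subgroup S) ↔ _
  rw [Subgroup.mem_pointwise_smul_iff_inv_smul_mem]
  rfl

/-- The set of elements of K acting on every Sylow p-subgroup of S as an inner automorphism. -/
def colSub {K : Type u} [Group K] {S : Type v} [Group S] (f : K →* MulAut S) (p : ℕ) :
    Subgroup K where
  carrier := {k | ∀ P : Sylow p S, ∃ s : S, ∀ y ∈ P, f k y = s * y * s⁻¹}
  mul_mem' := by
    intro a b ha hb P
    obtain ⟨s, hs⟩ := hb P
    obtain ⟨t, ht⟩ := ha (MulAut.conj s • P)
    refine ⟨t * s, fun y hy => ?_⟩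
    rw [map_mul, MulAut.mul_apply, hs y hy, ht]
    · group
    · rw [mem_smul_sylow, ← map_inv, MulAut.conj_apply]
      simpa [mul_assoc] using hy
  one_mem' := fun P => ⟨1, fun y _ => by simp⟩
  inv_mem' := by
    intro a ha P
    obtain ⟨s, hs⟩ := ha ((f a)⁻¹ • P)
    refine ⟨s⁻¹, fun y hy => ?_⟩
    have h1 : (f a)⁻¹ y ∈ (f a)⁻¹ • P := by
      rw [mem_smul_sylow, inv_inv, MulAut.apply_inv_self]
      exact hy
    have h2 := hs _ h1
    rw [MulAut.apply_inv_self] at h2
    rw [map_inv]
    conv_rhs => rw [h2]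
    group

theorem colSub_normal {K : Type u} [Group K] {S : Type v} [Group S] (f : K →* MulAut S) (p : ℕ) :
    (colSub f p).Normal := by
  constructor
  intro k hk g P
  obtain ⟨s, hs⟩ := hk ((f g)⁻¹ • P)
  refine ⟨f g s, fun y hy => ?_⟩
  have h1 : (f g)⁻¹ y ∈ (f g)⁻¹ • P := by
    rw [mem_smul_sylow, inv_inv, MulAut.apply_inv_self]
    exact hy
  rw [map_mul, map_mul, map_inv, MulAut.mul_apply, MulAut.mul_apply, hs _ h1, map_mul, map_mul,
    MulAut.apply_inv_self, map_inv]

/-- If one nontrivial element of a simple group fixes one Sylow p-subgroup of S pointwise then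
every element acts on every Sylow p-subgroup as an inner automorphism. -/
theorem colSub_top {K : Type u} [Group K] [IsSimpleGroup K] {S : Type v} [Group S] [Finite S]
    (f : K →* MulAut S) (p : ℕ) [Fact p.Prime] (x : K) (hx : x ≠ 1) (P : Sylow p S)
    (hP : ∀ y ∈ P, f x y = y) : colSub f p = ⊤ := by
  rcases (colSub_normal f p).eq_bot_or_eq_top with h | h
  · exfalso
    apply hx
    have hxm : x ∈ colSub f p := by
      intro P'
      obtain ⟨g, hg⟩ := MulAction.exists_smul_eq S P P'
      refine ⟨f x g * g⁻¹, fun y hy => ?_⟩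
      rw [← hg, Sylow.smul_def, mem_smul_sylow, ← map_inv, MulAut.conj_apply, inv_inv] at hy
      have h1 := hP _ hy
      rw [map_mul, map_mul, map_inv] at h1
      have h2 : f x y = f x g * (g⁻¹ * y * g) * (f x g)⁻¹ := by
        rw [← h1]; group
      rw [h2]; group
    rw [h] at hxm
    simpa using hxm
  · exact h

end Pool.Agent.MP_cb38be.H21
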