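import Pool.Agent.Lib.MP_cb38be_al_h21.A
import Pool.Agent.Lib.MP_cb38be_al_h21.B
import Pool.Agent.Lib.MP_cb38be_al_h21.D

set_option autoImplicit false

open Subgroup
open scoped Pointwise

universe u v

namespace Pool.Agent.MP_cb38be.H21

theorem not_pow_dvd_factorial {s n : ℕ} (hs : 1 < s) (hn : 0 < n) : ¬ s ^ n ∣ n.factorial := by
  intro hd
  obtain ⟨p, hp, hps⟩ := Nat.exists_prime_and_dvd hs.ne'
  have := Fact.mk hp
  have h1 : p ^ n ∣ n.factorial := (pow_dvd_pow_of_dvd hps n).trans hd
  have h2 : n ≤ padicValNat p n.factorial :=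
    (padicValNat_dvd_iff_le (Nat.factorial_ne_zero n)).mp h1
  have h3 := sub_one_mul_padicValNat_factorial (p := p) n
  have h4 : 0 < (p.digits n).sum := by
    rw [Nat.pos_iff_ne_zero]
    intro h0
    rw [List.sum_eq_zero_iff] at h0
    have hne : p.digits n ≠ [] := Nat.digits_ne_nil_iff_ne_zero.mpr hn.ne'
    exact Nat.getLast_digit_ne_zero p hn.ne' (h0 _ (List.getLast_mem hne))
  have h5 : padicValNat p n.factorial ≤ (p - 1) * padicValNat p n.factorial :=
    Nat.le_mul_of_pos_left _ (Nat.sub_pos_of_lt hp.one_lt)
  omega

section main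
variable {K : Type u} {L : Type v} [Group K] [Group L] [Finite K] [Finite L]

theorem inv_or [IsSimpleGroup K] (f : K →* MulAut L) (hcard : Nat.card L = Nat.card K)
    (N S : Subgroup L) [N.Characteristic] (hM : MinIn N S)
    (hc : ∀ y ∈ S, (∀ t ∈ S, y * t = t * y) → y = 1) :
    ∀ k : K, f k • S = S := by
  by_contra hcon
  push Not at hcon
  obtain ⟨k0, hk0⟩ := hcon
  let act : MulAction K (Subgroup L) := MulAction.compHom (Subgroup L) f
  have hact : ∀ (k : K) (T : Subgroup L), k • T = f k • T := fun k T => rfl
  set O := MulAction.orbit K S with hO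
  have : Fintype O := Fintype.ofFinite O
  have hmem : ∀ i : O, ∃ k : K, (i : Subgroup L) = f k • S := by
    rintro ⟨i, k, rfl⟩
    exact ⟨k, rfl⟩
  -- permutation action is faithful
  have hinj : Function.Injective (MulAction.toPermHom K O) := by
    rw [← MonoidHom.ker_eq_bot_iff]
    rcases (MonoidHom.normal_ker (MulAction.toPermHom K O)).eq_bot_or_eq_top with h | h
    · exact h
    · exfalso
      apply hk0
      have h1 : k0 ∈ (MulAction.toPermHom K O).ker := by rw [h]; trivial
      rw [MonoidHom.mem_ker] at h1
      have h2 := congrArg (fun g : Equiv.Perm O => ((g ⟨S, MulAction.mem_orbit_self S⟩ : O) :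
        Subgroup L)) h1
      exact h2
  have hcardfac : Nat.card K ∣ (Nat.card O).factorial := by
    have h1 := Subgroup.card_dvd_of_injective _ hinj
    rwa [Nat.card_perm] at h1
  -- independence
  have hmin : ∀ i : O, MinIn N (i : Subgroup L) := by
    intro i
    obtain ⟨k, hk⟩ := hmem i
    rw [hk]
    exact hM.smul _
  have hcomm : Pairwise fun i j : O => ∀ x y : L, x ∈ (i : Subgroup L) → y ∈ (j : Subgroup L) →
      Commute x y := by
    intro i j hij x y hx hy
    rcases (hmin i).eq_or_commute (hmin j) with h | h
    · exact absurd (Subtype.ext h) hij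
    · exact h x hx y hy
  have hind : iSupIndep (fun i : O => (i : Subgroup L)) := by
    intro i
    rw [Subgroup.disjoint_def]
    intro x hx hx'
    change x ∈ (i : Subgroup L) at hx
    obtain ⟨k, hk⟩ := hmem i
    have hxc : ∀ t ∈ (i : Subgroup L), x * t = t * x := by
      intro t ht
      have : (⨆ (j : O) (_ : j ≠ i), (j : Subgroup L)) ≤ centralizer {t} := by
        apply iSup_le
        intro j
        apply iSup_le
        intro hj y hy
        rw [mem_centralizer_singleton_iff]
        exact hcomm hj y t hy ht
      exact mem_centralizer_singleton_iff.mp (this hx')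
    rw [hk] at hx hxc
    rw [Subgroup.mem_pointwise_smul_iff_inv_smul_mem] at hx
    have h1 := hc _ hx (by
      intro t ht
      have h2 := hxc (f k • t) (Subgroup.smul_mem_pointwise_smul t (f k) S ht)
      have h3 := congrArg (fun z => (f k)⁻¹ • z) h2
      simpa [smul_mul'] using h3)
    have h4 := congrArg (fun z => f k • z) h1
    simpa using h4
  have hcardS : ∀ i : O, Nat.card (i : Subgroup L) = Nat.card S := by
    intro i
    obtain ⟨k, hk⟩ := hmem i
    rw [hk]
    exact (Nat.card_congr (Subgroup.equivSMul (f k) S).toEquiv).symm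
  have hprod : Nat.card S ^ Nat.card O ∣ Nat.card L := by
    have h1 := Subgroup.card_dvd_of_injective _
      (Subgroup.injective_noncommPiCoprod_of_iSupIndep (hcomm := hcomm) hind)
    rw [Nat.card_pi] at h1
    simp only [hcardS] at h1
    rw [Finset.prod_const, Finset.card_univ, ← Nat.card_eq_fintype_card] at h1
    exact h1
  have hO1 : 0 < Nat.card O := by
    have : Nonempty O := ⟨⟨S, MulAction.mem_orbit_self S⟩⟩
    exact Nat.card_pos
  have hS1 : 1 < Nat.card S := by
    rw [Finite.one_lt_card_iff_nontrivial]
    exact (Subgroup.nontrivial_iff_ne_bot S).mpr hM.1.1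
  apply not_pow_dvd_factorial hS1 hO1
  exact (hprod.trans (hcard ▸ dvd_rfl)).trans hcardfac

/-- Main dichotomy. -/
theorem dichotomy [IsSimpleGroup K] (hZ : center K = ⊥) (e : K ≃ L)
    (h : ∀ z : MulAut K, ∃ a : MulAut L, ∀ x : K, a (e x) = e (z x)) :
    Nonempty (L ≃* K) ∨ ∃ S : Subgroup L, IsSimpleGroup S ∧ (∃ a b : S, a * b ≠ b * a) ∧
      Nat.card S ∣ Nat.card K ∧ ∃ f : K →* MulAut S,
        (∀ k : K, f k ∈ (MulAut.conj : S →* MulAut S).range → k = 1) ∧
        ∀ (p : ℕ) (P : Sylow p S) (k : K), p.Prime → ∃ s : S, ∀ y ∈ P, f k y = s * y * s⁻¹ := by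
  have hcard : Nat.card L = Nat.card K := (Nat.card_congr e).symm
  have : Nontrivial L := by
    rw [← Finite.one_lt_card_iff_nontrivial, hcard, Finite.one_lt_card_iff_nontrivial]
    infer_instance
  obtain ⟨N, S, hN, hM, hsimple, hc⟩ := exists_simple (L := L) (by
    intro p hp N hN hNp
    have := Fact.mk hp
    exact no_char_p hZ e h p N hNp)
  have hinv := inv_or (act e h) hcard N S hM hc
  have hmem : ∀ (k : K) (s : L), s ∈ S → act e h k s ∈ S := by
    intro k s hs
    have := Subgroup.smul_mem_pointwise_smul s (act e h k) S hs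
    rwa [hinv k] at this
  -- restricted action
  let f : K →* MulAut S :=
    { toFun := fun k =>
        { toFun := fun s => ⟨act e h k s, hmem k s s.2⟩
          invFun := fun s => ⟨act e h k⁻¹ s, hmem k⁻¹ s s.2⟩
          left_inv := fun s => by
            ext
            change act e h k⁻¹ (act e h k s) = s
            rw [← MulAut.mul_apply, ← map_mul]; simp
          right_inv := fun s => by
            ext
            change act e h k (act e h k⁻¹ s) = s
            rw [← MulAut.mul_apply, ← map_mul]; simp
          map_mul' := fun s t => by ext; simp }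
      map_one' := by ext s; simp
      map_mul' := fun k l => by ext s; simp [MulAut.mul_apply] }
  have hf : ∀ (k : K) (s : S), ((f k s : S) : L) = act e h k s := fun k s => rfl
  have hnc : ∃ a b : S, a * b ≠ b * a := by
    by_contra hcon
    push Not at hcon
    apply hM.1.1
    rw [eq_bot_iff]
    intro y hy
    rw [mem_bot]
    apply hc y hy
    intro t ht
    have := hcon ⟨y, hy⟩ ⟨t, ht⟩
    simpa using congrArg Subtype.val this
  -- kernel of f
  have hker : f.ker = ⊥ := by
    rcases (MonoidHom.normal_ker f).eq_bot_or_eq_top with h1 | h1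
    · exact h1
    · exfalso
      apply hM.1.1
      rw [eq_bot_iff]
      intro y hy
      rw [mem_bot]
      apply fix_all e h hZ
      intro k
      have h2 : k ∈ f.ker := by rw [h1]; trivial
      rw [MonoidHom.mem_ker] at h2
      have h3 := hf k ⟨y, hy⟩
      rw [h2] at h3
      simpa using h3.symm
  have hB : (((MulAut.conj : S →* MulAut S).range).comap f).Normal := by
    constructor
    rintro k ⟨s, hs⟩ g
    refine ⟨f g s, ?_⟩
    rw [map_mul, map_mul, ← hs]
    ext t
    simp [MulAut.conj_apply, MulAut.mul_apply, map_mul, map_inv]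
  rcases hB.eq_bot_or_eq_top with hb | ht
  · right
    have hSd : Nat.card S ∣ Nat.card K := by rw [← hcard]; exact card_subgroup_dvd_card S
    refine ⟨S, hsimple, hnc, hSd, f, ?_, ?_⟩
    · intro k hk
      have : k ∈ ((MulAut.conj : S →* MulAut S).range).comap f := hk
      rw [hb] at this
      simpa using this
    · intro p P k hp
      have := Fact.mk hp
      by_cases hpK : p ∣ Nat.card K
      · obtain ⟨x, hx, Q, hQ⟩ := exists_fix_sylow e h p hpK
        obtain ⟨P0, hP0⟩ := exists_sylow p Q N S hM.1.2
        have ht := colSub_top f p x hx P0 (fun y hy => by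
          ext
          rw [hf]
          exact hQ (hP0 y hy))
        have hk : k ∈ colSub f p := by rw [ht]; trivial
        exact hk P
      · refine ⟨1, fun y hy => ?_⟩
        obtain ⟨n, hn⟩ := P.2 ⟨y, hy⟩
        have h1 : y ^ p ^ n = 1 := by simpa using congrArg Subtype.val hn
        have h2 : orderOf y ∣ p ^ n := orderOf_dvd_of_pow_eq_one h1
        have h3 : orderOf y ∣ Nat.card K := (orderOf_dvd_natCard y).trans hSd
        have h4 : orderOf y = 1 := by
          obtain ⟨m, _, hm⟩ := (Nat.dvd_prime_pow hp).mp h2
          rcases Nat.eq_zero_or_pos m with h0 | h0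
          · rw [hm, h0, pow_zero]
          · exfalso
            exact hpK ((dvd_pow_self p h0.ne').trans (hm ▸ h3))
        rw [orderOf_eq_one_iff] at h4
        rw [h4]; simp
  · left
    have hle : f.range ≤ (MulAut.conj : S →* MulAut S).range := by
      rintro _ ⟨k, rfl⟩
      have : k ∈ ((MulAut.conj : S →* MulAut S).range).comap f := by rw [ht]; trivial
      exact this
    have hfi : Function.Injective f := (MonoidHom.ker_eq_bot_iff f).mp hker
    have hci : Function.Injective (MulAut.conj : S →* MulAut S) := by
      rw [← MonoidHom.ker_eq_bot_iff, eq_bot_iff]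
      intro y hy
      rw [MonoidHom.mem_ker] at hy
      rw [mem_bot]
      ext
      apply hc y y.2
      intro t ht'
      have h1 := congrArg (fun g : MulAut S => ((g ⟨t, ht'⟩ : S) : L)) hy
      simp only [MulAut.conj_apply, MulAut.one_apply, Subgroup.coe_mul, Subgroup.coe_inv] at h1
      exact mul_inv_eq_iff_eq_mul.mp h1
    have c1 : Nat.card f.range = Nat.card K :=
      (Nat.card_congr (MonoidHom.ofInjective hfi).toEquiv).symm
    have c2 : Nat.card (MulAut.conj : S →* MulAut S).range = Nat.card S :=
      (Nat.card_congr (MonoidHom.ofInjective hci).toEquiv).symm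
    have c3 : Nat.card f.range ≤ Nat.card (MulAut.conj : S →* MulAut S).range :=
      Subgroup.card_le_of_le hle
    have c4 : Nat.card S ≤ Nat.card L := Subgroup.card_le_card_group S
    have hStop : S = ⊤ := by
      apply Subgroup.eq_top_of_card_eq
      omega
    have hrange : f.range = (MulAut.conj : S →* MulAut S).range := by
      apply Subgroup.eq_of_le_of_card_ge hle
      omega
    have e1 : L ≃* S := (Subgroup.topEquiv.symm).trans (MulEquiv.subgroupCongr hStop.symm)
    have e2 : S ≃* (MulAut.conj : S →* MulAut S).range := MonoidHom.ofInjective hci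
    have e3 : (MulAut.conj : S →* MulAut S).range ≃* f.range := MulEquiv.subgroupCongr hrange.symm
    have e4 : f.range ≃* K := (MonoidHom.ofInjective hfi).symm
    exact ⟨((e1.trans e2).trans e3).trans e4⟩

end main

end Pool.Agent.MP_cb38be.H21
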